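import Mathlib

/-!
# From an almost ring to an exact finite ring (module T3 of MP_141f81, section 9)

`U` is a finite elementary abelian 2-group, `P y v x` says that `x` is an approximate product of `y` and `v`,
`Sm B` is the set of elements of size at most `B`.  All laws hold up to `Sm b`.  Then there is a subgroup `I`
of bounded size such that the product is exactly biadditive, commutative and associative on `U ⧸ I`.
-/

namespace Pool.Agent.helper80.MF9

open Finset

variable {U : Type*} [AddCommGroup U]

/-- In an elementary abelian 2-group every element of the subgroup generated by a finite set is a subset sum. -/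
theorem closure_subset_sum (h2 : ∀ x : U, x + x = 0) (S : Finset U) (x : U)
    (hx : x ∈ AddSubgroup.closure (S : Set U)) : ∃ T ⊆ S, x = ∑ s ∈ T, s := by
  classical
  induction hx using AddSubgroup.closure_induction with
  | mem x hx =>
    exact ⟨{x}, by simpa using hx, by simp⟩
  | zero => exact ⟨∅, by simp, by simp⟩
  | add x y _ _ hx hy =>
    obtain ⟨T, hT, rfl⟩ := hx
    obtain ⟨T', hT', rfl⟩ := hy
    refine ⟨(T \ T') ∪ (T' \ T), ?_, ?_⟩
    · intro a ha
      simp only [mem_union, mem_sdiff] at ha
      rcases ha with ha | ha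
      · exact hT ha.1
      · exact hT' ha.1
    · rw [sum_union (by
        rw [disjoint_left]
        intro a ha hb
        simp only [mem_sdiff] at ha hb
        exact ha.2 hb.1)]
      have e1 : ∑ s ∈ T, s = ∑ s ∈ T \ T', s + ∑ s ∈ T ∩ T', s := by
        rw [← sum_union (by
          rw [disjoint_left]
          intro a ha hb
          simp only [mem_sdiff, mem_inter] at ha hb
          exact ha.2 hb.2)]
        congr 1
        ext a
        simp only [mem_union, mem_sdiff, mem_inter]
        tauto
      have e2 : ∑ s ∈ T', s = ∑ s ∈ T' \ T, s + ∑ s ∈ T ∩ T', s := by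
        rw [← sum_union (by
          rw [disjoint_left]
          intro a ha hb
          simp only [mem_sdiff, mem_inter] at ha hb
          exact ha.2 hb.1)]
        congr 1
        ext a
        simp only [mem_union, mem_sdiff, mem_inter]
        tauto
      rw [e1, e2]
      have := h2 (∑ s ∈ T ∩ T', s)
      calc (∑ s ∈ T \ T', s + ∑ s ∈ T ∩ T', s) + (∑ s ∈ T' \ T, s + ∑ s ∈ T ∩ T', s)
          = (∑ s ∈ T \ T', s + ∑ s ∈ T' \ T, s) + (∑ s ∈ T ∩ T', s + ∑ s ∈ T ∩ T', s) := by abel
        _ = _ := by rw [this, add_zero]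
  | neg x _ hx =>
    obtain ⟨T, hT, rfl⟩ := hx
    refine ⟨T, hT, ?_⟩
    exact neg_eq_of_add_eq_zero_left (h2 _)

/-- An almost ring: products exist, and all laws hold up to elements of size at most `b`. -/
structure AlmostRing (P : U → U → U → Prop) (Sm : ℕ → Set U) (b : ℕ) : Prop where
  zero : (0 : U) ∈ Sm 0
  mono : ∀ {B B' : ℕ}, B ≤ B' → Sm B ⊆ Sm B'
  add : ∀ {B B' : ℕ} {f g : U}, f ∈ Sm B → g ∈ Sm B' → f + g ∈ Sm (B + B')
  tot : ∀ y v, ∃ x, P y v x
  uniq : ∀ {y v x x'}, P y v x → P y v x' → x + x' ∈ Sm b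
  addl : ∀ {y y' v x x' x''}, P y v x → P y' v x' → P (y + y') v x'' → x + x' + x'' ∈ Sm b
  symm : ∀ {y v x x'}, P y v x → P v y x' → x + x' ∈ Sm b
  assoc : ∀ {y v w a x c x'}, P v w a → P y a x → P y v c → P c w x' → x + x' ∈ Sm b
  small : ∀ {B : ℕ} {y f x}, f ∈ Sm B → P y f x → x ∈ Sm (B + b)

/-- Bound for the elements of the subgroup generated by `Sm B`. -/
def clB (q : ℕ → ℕ) (B : ℕ) : ℕ := q B * B

/-- The bound for the size of elements of `J`, the subgroup generated by `Sm (3 * b)`. -/
def BJ (q : ℕ → ℕ) (b : ℕ) : ℕ := clB q (3 * b)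

/-- The bound for associators. -/
def BA (q : ℕ → ℕ) (b : ℕ) : ℕ := 4 * BJ q b + 20 * b

/-- The bound for the generators of the ideal. -/
def BI (q : ℕ → ℕ) (b : ℕ) : ℕ := clB q (BA q b) + BJ q b + BA q b + b

/-- The bound for the cardinality of the ideal. -/
def QI (q : ℕ → ℕ) (b : ℕ) : ℕ := 2 ^ q (BI q b)

theorem sum_mem_Sm {P : U → U → U → Prop} {Sm : ℕ → Set U} {b : ℕ} (h : AlmostRing P Sm b)
    (B : ℕ) (T : Finset U) (hT : ∀ s ∈ T, s ∈ Sm B) : ∑ s ∈ T, s ∈ Sm (T.card * B) := by
  classical
  induction T using Finset.induction_on with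
  | empty => simpa using h.zero
  | insert a T ha ih =>
    rw [sum_insert ha, card_insert_of_notMem ha]
    have h1 : a ∈ Sm B := hT a (mem_insert_self _ _)
    have h2 := ih (fun s hs => hT s (mem_insert_of_mem hs))
    have h3 := h.add h1 h2
    have : B + T.card * B = (T.card + 1) * B := by ring
    rw [this] at h3
    exact h3

theorem closure_mem_Sm [Finite U] (h2 : ∀ x : U, x + x = 0) {P : U → U → U → Prop} {Sm : ℕ → Set U}
    {b : ℕ} (h : AlmostRing P Sm b) (q : ℕ → ℕ) (hq : ∀ B, (Sm B).ncard ≤ q B) (B : ℕ) (x : U)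
    (hx : x ∈ AddSubgroup.closure (Sm B)) : x ∈ Sm (clB q B) := by
  classical
  have hfin : (Sm B).Finite := Set.toFinite _
  obtain ⟨T, hT, rfl⟩ := closure_subset_sum h2 hfin.toFinset x (by rw [Set.Finite.coe_toFinset]; exact hx)
  have h1 : ∀ s ∈ T, s ∈ Sm B := fun s hs => by simpa using hT hs
  have h3 := sum_mem_Sm h B T h1
  refine h.mono ?_ h3
  have h4 : T.card ≤ (Sm B).ncard := by
    rw [Set.ncard_eq_toFinset_card _ hfin]
    exact card_le_card hT
  exact Nat.mul_le_mul_right B (h4.trans (hq B))

theorem card_closure_le [Finite U] (h2 : ∀ x : U, x + x = 0) (S : Set U) (k : ℕ) (hk : S.ncard ≤ k) :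
    Nat.card (AddSubgroup.closure S) ≤ 2 ^ k := by
  classical
  have hfin : S.Finite := Set.toFinite _
  have := Fintype.ofFinite U
  have h1 : ((AddSubgroup.closure S : AddSubgroup U) : Set U) ⊆
      ((hfin.toFinset.powerset.image (fun T => ∑ s ∈ T, s) : Finset U) : Set U) := by
    intro x hx
    obtain ⟨T, hT, rfl⟩ := closure_subset_sum h2 hfin.toFinset x (by rw [Set.Finite.coe_toFinset]; exact hx)
    simp only [coe_image, Set.mem_image, mem_coe, mem_powerset]
    exact ⟨T, hT, rfl⟩
  have h3 : Nat.card (AddSubgroup.closure S) = ((AddSubgroup.closure S : AddSubgroup U) : Set U).ncard :=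
    Nat.card_coe_set_eq _
  rw [h3]
  calc ((AddSubgroup.closure S : AddSubgroup U) : Set U).ncard
      ≤ ((hfin.toFinset.powerset.image (fun T => ∑ s ∈ T, s) : Finset U) : Set U).ncard :=
        Set.ncard_le_ncard h1 (Finset.finite_toSet _)
    _ = (hfin.toFinset.powerset.image (fun T => ∑ s ∈ T, s)).card := Set.ncard_coe_finset _
    _ ≤ hfin.toFinset.powerset.card := card_image_le
    _ = 2 ^ hfin.toFinset.card := card_powerset _
    _ ≤ 2 ^ k := by
        apply Nat.pow_le_pow_right (by norm_num)
        rw [← Set.ncard_eq_toFinset_card _ hfin]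
        exact hk

/-- An additive section of the quotient map by a subgroup of an elementary abelian 2-group. -/
theorem exists_section (h2 : ∀ x : U, x + x = 0) (J : AddSubgroup U) :
    ∃ s : U ⧸ J →+ U, ∀ z, (QuotientAddGroup.mk (s z) : U ⧸ J) = z := by
  classical
  let _ : Module (ZMod 2) U := AddCommGroup.zmodModule (n := 2) (fun x => by rw [two_nsmul]; exact h2 x)
  have h2' : ∀ z : U ⧸ J, z + z = 0 := by
    intro z
    induction z using QuotientAddGroup.induction_on with
    | H x => rw [← QuotientAddGroup.mk_add, h2]; rfl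
  let _ : Module (ZMod 2) (U ⧸ J) :=
    AddCommGroup.zmodModule (n := 2) (fun x => by rw [two_nsmul]; exact h2' x)
  let f : U →ₗ[ZMod 2] U ⧸ J := AddMonoidHom.toZModLinearMap 2 (QuotientAddGroup.mk' J)
  have hf : Function.Surjective f := QuotientAddGroup.mk'_surjective J
  obtain ⟨g, hg⟩ := f.exists_rightInverse_of_surjective (LinearMap.range_eq_top.2 hf)
  refine ⟨g.toAddMonoidHom, fun z => ?_⟩
  have := LinearMap.congr_fun hg z
  exact this


/-- An almost ring is an exact commutative and associative ring modulo a bounded subgroup. -/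
theorem exact_ring [Finite U] (h2 : ∀ x : U, x + x = 0) {P : U → U → U → Prop} {Sm : ℕ → Set U}
    {b : ℕ} (h : AlmostRing P Sm b) (q : ℕ → ℕ) (hq : ∀ B, (Sm B).ncard ≤ q B) :
    ∃ I : AddSubgroup U, Nat.card I ≤ QI q b ∧ Sm b ⊆ I ∧
      ∃ m : (U ⧸ I) →+ (U ⧸ I) →+ (U ⧸ I),
        (∀ y v x, P y v x → m (QuotientAddGroup.mk y) (QuotientAddGroup.mk v) = QuotientAddGroup.mk x) ∧
        (∀ a c, m a c = m c a) ∧ (∀ a c d, m a (m c d) = m (m a c) d) := by
  classical
  have hneg : ∀ x : U, -x = x := fun x => neg_eq_of_add_eq_zero_left (h2 x)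
  -- the first subgroup
  set J : AddSubgroup U := AddSubgroup.closure (Sm (3 * b)) with hJ
  have hJS : ∀ f ∈ J, f ∈ Sm (BJ q b) := fun f hf => closure_mem_Sm h2 h q hq (3 * b) f hf
  have hSJ : ∀ B, B ≤ 3 * b → ∀ f ∈ Sm B, f ∈ J := fun B hB f hf =>
    AddSubgroup.subset_closure (h.mono hB hf)
  have hJ1 : ∀ f ∈ Sm b, f ∈ J := hSJ b (by omega)
  have mkeq : ∀ {x x' : U}, x + x' ∈ J → (QuotientAddGroup.mk x : U ⧸ J) = QuotientAddGroup.mk x' := by
    intro x x' hx
    rw [QuotientAddGroup.eq, hneg]
    exact hx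
  have mkeq' : ∀ {x x' : U}, (QuotientAddGroup.mk x : U ⧸ J) = QuotientAddGroup.mk x' → x + x' ∈ J := by
    intro x x' hx
    rw [QuotientAddGroup.eq, hneg] at hx
    exact hx
  choose pr hpr using h.tot
  obtain ⟨s, hs⟩ := exists_section h2 J
  -- the exact product
  have hadd1 : ∀ y y' v, (QuotientAddGroup.mk (pr (y + y') v) : U ⧸ J) =
      QuotientAddGroup.mk (pr y v) + QuotientAddGroup.mk (pr y' v) := by
    intro y y' v
    rw [← QuotientAddGroup.mk_add]
    apply mkeq
    have := h.addl (hpr y v) (hpr y' v) (hpr (y + y') v)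
    rw [add_comm]
    exact hJ1 _ this
  have hsym1 : ∀ y v, (QuotientAddGroup.mk (pr y v) : U ⧸ J) = QuotientAddGroup.mk (pr v y) := by
    intro y v
    exact mkeq (hJ1 _ (h.symm (hpr y v) (hpr v y)))
  have hadd2 : ∀ y v v', (QuotientAddGroup.mk (pr y (v + v')) : U ⧸ J) =
      QuotientAddGroup.mk (pr y v) + QuotientAddGroup.mk (pr y v') := by
    intro y v v'
    rw [hsym1 y (v + v'), hadd1, hsym1 v y, hsym1 v' y]
  set o : U → U → U := fun y v => s (QuotientAddGroup.mk (pr y v)) with ho
  have o_addl : ∀ y y' v, o (y + y') v = o y v + o y' v := by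
    intro y y' v
    simp only [ho, hadd1, map_add]
  have o_addr : ∀ y v v', o y (v + v') = o y v + o y v' := by
    intro y v v'
    simp only [ho, hadd2, map_add]
  have o_comm : ∀ y v, o y v = o v y := by
    intro y v
    simp only [ho, hsym1 y v]
  have o_P : ∀ {y v x}, P y v x → x + o y v ∈ J := by
    intro y v x hx
    have h1 : x + pr y v ∈ J := hJ1 _ (h.uniq hx (hpr y v))
    have h3 : pr y v + o y v ∈ J := by
      apply mkeq'
      simp only [ho]
      rw [hs]
    have h4 := J.add_mem h1 h3
    have : x + pr y v + (pr y v + o y v) = x + o y v := by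
      calc x + pr y v + (pr y v + o y v) = x + o y v + (pr y v + pr y v) := by abel
        _ = _ := by rw [h2, add_zero]
    rwa [this] at h4
  -- approximate products of close elements
  have close : ∀ {y v v' x x'} {B : ℕ}, v + v' ∈ Sm B → P y v x → P y v' x' → x + x' ∈ Sm (B + 5 * b) := by
    intro y v v' x x' B hv hx hx'
    have h1 := hpr v y
    have h3 := hpr v' y
    have h4 := hpr (v + v') y
    have h5 := h.addl h1 h3 h4
    have h6 := hpr y (v + v')
    have h7 := h.small hv h6
    have h8 := h.symm h6 h4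
    have h9 := h.symm hx h1
    have h10 := h.symm hx' h3
    have h11 := h.add (h.add (h.add (h.add h5 h7) h8) h9) h10
    have e : pr v y + pr v' y + pr (v + v') y + pr y (v + v') + (pr y (v + v') + pr (v + v') y) +
        (x + pr v y) + (x' + pr v' y) = x + x' := by
      calc pr v y + pr v' y + pr (v + v') y + pr y (v + v') + (pr y (v + v') + pr (v + v') y) +
            (x + pr v y) + (x' + pr v' y)
          = x + x' + (pr v y + pr v y) + (pr v' y + pr v' y) + (pr (v + v') y + pr (v + v') y) +
            (pr y (v + v') + pr y (v + v')) := by abel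
        _ = _ := by simp only [h2, add_zero]
    rw [e] at h11
    refine h.mono ?_ h11
    omega
  have hsmall : ∀ {f g : U}, f ∈ Sm (BJ q b) → g ∈ J → f + g ∈ Sm (2 * BJ q b) := by
    intro f g hf hg
    have := h.add hf (hJS g hg)
    rwa [← two_mul] at this
  -- associators are small
  have hassoc : ∀ y v w, o y (o v w) + o (o y v) w ∈ Sm (BA q b) := by
    intro y v w
    have a1 := hpr v w
    have a2 := o_P a1
    have a3 := hpr y (pr v w)
    have a4 := hpr y (o v w)
    have a5 := close (hJS _ a2) a3 a4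
    have a6 := hJS _ (o_P a4)
    have c1 := hpr y v
    have c2 := o_P c1
    have c3 := hpr (pr y v) w
    have c4 := hpr w (pr y v)
    have c5 := hpr w (o y v)
    have c6 := close (hJS _ c2) c4 c5
    have c7 := hpr (o y v) w
    have c8 := hJS _ (o_P c7)
    have c9 := h.symm c3 c4
    have c10 := h.symm c7 c5
    have a7 := h.assoc a1 a3 c1 c3
    have t := h.add (h.add (h.add (h.add (h.add (h.add a5 a6) c6) c8) c9) c10) a7
    have e : pr y (pr v w) + pr y (o v w) + (pr y (o v w) + o y (o v w)) +
        (pr w (pr y v) + pr w (o y v)) + (pr (o y v) w + o (o y v) w) +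
        (pr (pr y v) w + pr w (pr y v)) + (pr (o y v) w + pr w (o y v)) +
        (pr y (pr v w) + pr (pr y v) w) = o y (o v w) + o (o y v) w := by
      calc _ = o y (o v w) + o (o y v) w + (pr y (pr v w) + pr y (pr v w)) +
            (pr y (o v w) + pr y (o v w)) + (pr w (pr y v) + pr w (pr y v)) +
            (pr w (o y v) + pr w (o y v)) + (pr (o y v) w + pr (o y v) w) +
            (pr (pr y v) w + pr (pr y v) w) := by abel
        _ = _ := by simp only [h2, add_zero]
    rw [e] at t
    refine h.mono ?_ t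
    unfold BA
    omega
  -- the ideal
  set F : AddSubgroup U := AddSubgroup.closure (Sm (BA q b)) with hF
  have hFS : ∀ f ∈ F, f ∈ Sm (clB q (BA q b)) := fun f hf => closure_mem_Sm h2 h q hq _ f hf
  have hJF : J ≤ F := by
    rw [hJ, hF]
    apply AddSubgroup.closure_mono
    apply h.mono
    unfold BA
    omega
  set G : Set U := {z | ∃ y : U, ∃ f ∈ F, z = o y f} with hG
  have hGS : ∀ z ∈ G, z ∈ Sm (BI q b) := by
    rintro z ⟨y, f, hf, rfl⟩
    have h1 := h.small (hFS f hf) (hpr y f)
    have h3 := hJS _ (o_P (hpr y f))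
    have h4 := h.add h1 h3
    have e : pr y f + (pr y f + o y f) = o y f := by rw [← add_assoc, h2, zero_add]
    rw [e] at h4
    refine h.mono ?_ h4
    unfold BI
    omega
  set I : AddSubgroup U := F ⊔ AddSubgroup.closure G with hI
  have hFI : F ≤ I := le_sup_left
  have hGI : ∀ y, ∀ f ∈ F, o y f ∈ I := by
    intro y f hf
    exact (le_sup_right : AddSubgroup.closure G ≤ I) (AddSubgroup.subset_closure ⟨y, f, hf, rfl⟩)
  have hcl : I ≤ AddSubgroup.closure (Sm (BI q b)) := by
    apply sup_le
    · rw [hF]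
      apply AddSubgroup.closure_mono
      apply h.mono
      unfold BI
      omega
    · apply AddSubgroup.closure_mono
      exact hGS
  have o_zero : ∀ y, o y 0 = 0 := by
    intro y
    have := o_addr y 0 0
    rw [add_zero] at this
    exact left_eq_add.mp this
  have o_neg : ∀ y v, o y (-v) = -o y v := by
    intro y v
    rw [hneg, hneg]
  have ideal : ∀ y, ∀ f ∈ I, o y f ∈ I := by
    intro y f hf
    rw [hI, AddSubgroup.mem_sup] at hf
    obtain ⟨f1, hf1, g, hg, rfl⟩ := hf
    rw [o_addr]
    refine I.add_mem (hGI y f1 hf1) ?_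
    induction hg using AddSubgroup.closure_induction with
    | mem x hx =>
      obtain ⟨u, f, hf, rfl⟩ := hx
      have h1 := hassoc y u f
      have h3 : o (o y u) f ∈ I := hGI _ f hf
      have h4 : o y (o u f) + o (o y u) f ∈ I := hFI (AddSubgroup.subset_closure h1)
      have h5 := I.add_mem h4 h3
      have e : o y (o u f) + o (o y u) f + o (o y u) f = o y (o u f) := by
        rw [add_assoc, h2, add_zero]
      rwa [e] at h5
    | zero => rw [o_zero]; exact I.zero_mem
    | add x y' _ _ hx hy => rw [o_addr]; exact I.add_mem hx hy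
    | neg x _ hx => rw [o_neg]; exact I.neg_mem hx
  have ideal' : ∀ y, ∀ f ∈ I, o f y ∈ I := by
    intro y f hf
    rw [o_comm]
    exact ideal y f hf
  -- the product on the quotient
  let m1 : U → U →+ (U ⧸ I) := fun y =>
    { toFun := fun v => QuotientAddGroup.mk (o y v)
      map_zero' := by rw [o_zero]; rfl
      map_add' := fun v v' => by rw [o_addr]; rfl }
  let m2 : U → (U ⧸ I) →+ (U ⧸ I) := fun y => QuotientAddGroup.lift I (m1 y) (by
    intro f hf
    change (QuotientAddGroup.mk (o y f) : U ⧸ I) = 0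
    exact (QuotientAddGroup.eq_zero_iff _).2 (ideal y f hf))
  have m2_mk : ∀ y v, m2 y (QuotientAddGroup.mk v) = QuotientAddGroup.mk (o y v) := fun y v => rfl
  let m3 : U →+ (U ⧸ I) →+ (U ⧸ I) :=
    { toFun := m2
      map_zero' := by
        ext v
        change (QuotientAddGroup.mk (o 0 v) : U ⧸ I) = 0
        rw [o_comm, o_zero]
        rfl
      map_add' := fun y y' => by
        ext v
        change (QuotientAddGroup.mk (o (y + y') v) : U ⧸ I) = QuotientAddGroup.mk (o y v) +
          QuotientAddGroup.mk (o y' v)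
        rw [o_addl]
        rfl }
  let m : (U ⧸ I) →+ (U ⧸ I) →+ (U ⧸ I) := QuotientAddGroup.lift I m3 (by
    intro f hf
    ext v
    change (QuotientAddGroup.mk (o f v) : U ⧸ I) = 0
    exact (QuotientAddGroup.eq_zero_iff _).2 (ideal' v f hf))
  have m_mk : ∀ y v : U, m (QuotientAddGroup.mk y) (QuotientAddGroup.mk v) = QuotientAddGroup.mk (o y v) :=
    fun y v => rfl
  refine ⟨I, ?_, ?_, m, ?_, ?_, ?_⟩
  · calc Nat.card I ≤ Nat.card (AddSubgroup.closure (Sm (BI q b))) := by
          exact Nat.card_le_card_of_injective (AddSubgroup.inclusion hcl)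
            (AddSubgroup.inclusion_injective hcl)
      _ ≤ QI q b := card_closure_le h2 _ _ (hq _)
  · intro f hf
    exact hFI (hJF (hJ1 f hf))
  · intro y v x hx
    rw [m_mk, QuotientAddGroup.eq, hneg, add_comm]
    exact hFI (hJF (o_P hx))
  · intro a c
    induction a using QuotientAddGroup.induction_on with
    | H y =>
      induction c using QuotientAddGroup.induction_on with
      | H v => rw [m_mk, m_mk, o_comm]
  · intro a c d
    induction a using QuotientAddGroup.induction_on with
    | H y =>
      induction c using QuotientAddGroup.induction_on with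
      | H v =>
        induction d using QuotientAddGroup.induction_on with
        | H w =>
          rw [m_mk, m_mk, m_mk, m_mk, QuotientAddGroup.eq, hneg]
          exact hFI (AddSubgroup.subset_closure (hassoc y v w))

end Pool.Agent.helper80.MF9
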